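import Mathlib

/-!
# Orders of quotients of an abelian group by cyclic subgroups (helper25, problem MP_0e99b3_gt)

If `A / ⟨g₀⟩` is finite of order `N`, `A` is infinite and `N γ = w g₀`, then `A / ⟨γ⟩` has order
`|w|` (`Nat.card = 0` if it is infinite).  Consequence: if `A / ⟨μ + 2mν⟩` and `A / ⟨μ + 2nν⟩` have
the same odd order, `m ≠ n`, and `A / ⟨ν⟩` has even order (or is infinite), then `ν` is torsion.
-/

open AddSubgroup

namespace H25.CC

variable {A : Type*} [AddCommGroup A]

theorem not_fin_of_index_ne_zero [Infinite A] {g : A} (h : (zmultiples g).index ≠ 0) :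
    ¬ IsOfFinAddOrder g := by
  intro hg
  have hf : Finite (zmultiples g) := (finite_zmultiples.2 hg).to_subtype
  have h1 := (zmultiples g).card_mul_index
  have h2 : Nat.card A ≠ 0 := by
    rw [← h1]
    exact mul_ne_zero Nat.card_pos.ne' h
  exact h2 (Nat.card_eq_zero_of_infinite)

theorem relIndex_zsmul {g : A} (hg : ¬ IsOfFinAddOrder g) (w : ℤ) :
    (zmultiples (w • g)).relIndex (zmultiples g) = w.natAbs := by
  have hinj : Function.Injective (zmultiplesHom A g) :=
    injective_zsmul_iff_not_isOfFinAddOrder.2 hg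
  have h1 : zmultiples (w • g) = (zmultiples w).map (zmultiplesHom A g) := by
    rw [AddMonoidHom.map_zmultiples]; rfl
  have h2 : zmultiples g = (⊤ : AddSubgroup ℤ).map (zmultiplesHom A g) := by
    rw [← AddMonoidHom.range_eq_map]; rfl
  rw [h1, h2, relIndex_map_map_of_injective _ _ hinj, relIndex_top_right, Int.index_zmultiples]

theorem index_eq_natAbs [Infinite A] {g₀ γ : A} {w : ℤ} (hN0 : (zmultiples g₀).index ≠ 0)
    (h : (((zmultiples g₀).index : ℕ) : ℤ) • γ = w • g₀) :
    (zmultiples γ).index = w.natAbs := by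
  have hg₀ := not_fin_of_index_ne_zero hN0
  set N := (zmultiples g₀).index with hN
  have hNz : ((N : ℕ) : ℤ) ≠ 0 := by exact_mod_cast hN0
  by_cases hw : w = 0
  · subst hw
    have hfin : IsOfFinAddOrder γ := by
      rw [isOfFinAddOrder_iff_zsmul_eq_zero]
      exact ⟨N, hNz, by simpa using h⟩
    by_contra hne
    have h2 : (zmultiples γ).index ≠ 0 := by simpa using hne
    exact not_fin_of_index_ne_zero h2 hfin
  · have hγ : ¬ IsOfFinAddOrder γ := by
      intro hfin
      apply hg₀
      rw [isOfFinAddOrder_iff_zsmul_eq_zero] at hfin ⊢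
      obtain ⟨k, hk, hk2⟩ := hfin
      refine ⟨k * w, mul_ne_zero hk hw, ?_⟩
      rw [mul_zsmul, ← h, zsmul_comm, hk2, zsmul_zero]
    have e1 := relIndex_mul_index (H := zmultiples ((N : ℤ) • γ)) (K := zmultiples γ)
      (zmultiples_le_of_mem ⟨N, rfl⟩)
    have e2 := relIndex_mul_index (H := zmultiples (w • g₀)) (K := zmultiples g₀)
      (zmultiples_le_of_mem ⟨w, rfl⟩)
    rw [relIndex_zsmul hγ, h, ← e2, relIndex_zsmul hg₀, ← hN, Int.natAbs_natCast] at e1
    have : N * (zmultiples γ).index = N * w.natAbs := by rw [e1, mul_comm]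
    exact Nat.eq_of_mul_eq_mul_left (Nat.pos_of_ne_zero hN0) this

/-- **The slope of `T(0)` is the rational longitude.** -/
theorem torsion_of_orders [Infinite A] {μ ν : A} {m n : ℤ} (hmn : m ≠ n)
    (hodd : Odd (Nat.card (A ⧸ zmultiples (μ + (2 * m) • ν))))
    (heq : Nat.card (A ⧸ zmultiples (μ + (2 * m) • ν))
      = Nat.card (A ⧸ zmultiples (μ + (2 * n) • ν)))
    (heven : Even (Nat.card (A ⧸ zmultiples ν))) : IsOfFinAddOrder ν := by
  change Odd (zmultiples (μ + (2 * m) • ν)).index at hodd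
  change (zmultiples (μ + (2 * m) • ν)).index = (zmultiples (μ + (2 * n) • ν)).index at heq
  change Even (zmultiples ν).index at heven
  set g₀ := μ + (2 * m) • ν with hg₀
  have hN0 : (zmultiples g₀).index ≠ 0 := by
    intro h; rw [h] at hodd; exact absurd hodd (by decide)
  set N := (zmultiples g₀).index with hN
  have hmem : ∀ a : A, ∃ w : ℤ, ((N : ℕ) : ℤ) • a = w • g₀ := by
    intro a
    have : N • a ∈ zmultiples g₀ := by rw [hN]; exact nsmul_index_mem _ a
    obtain ⟨w, hw⟩ := mem_zmultiples_iff.1 this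
    exact ⟨w, by rw [hw]; simp⟩
  obtain ⟨v, hv⟩ := hmem ν
  have hNg : ((N : ℕ) : ℤ) • g₀ = (N : ℤ) • g₀ := rfl
  have hn : ((N : ℕ) : ℤ) • (μ + (2 * n) • ν) = ((N : ℤ) + 2 * (n - m) * v) • g₀ := by
    have e : μ + (2 * n) • ν = g₀ + (2 * (n - m)) • ν := by
      rw [hg₀, add_assoc, ← add_zsmul]; congr 2; ring
    rw [e, zsmul_add, add_zsmul, ← mul_zsmul, mul_comm (N : ℤ), mul_zsmul, hv, ← mul_zsmul]
  have i1 := index_eq_natAbs hN0 hn
  have i2 := index_eq_natAbs hN0 hv
  have hveven : Even v := by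
    rw [i2] at heven
    exact Int.natAbs_even.1 heven
  have hNodd : Odd ((N : ℕ) : ℤ) := by exact_mod_cast hodd
  rw [i1] at heq
  have hv0 : v = 0 := by
    have h3 : ((N : ℤ)).natAbs = ((N : ℤ) + 2 * (n - m) * v).natAbs := by
      simpa using heq
    rcases Int.natAbs_eq_natAbs_iff.1 h3 with h4 | h4
    · have : (n - m) * v = 0 := by linarith
      rcases mul_eq_zero.1 this with h5 | h5
      · exact absurd (by linarith : m = n) hmn
      · exact h5
    · exfalso
      have h5 : (N : ℤ) = -((n - m) * v) := by linarith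
      have h6 : Even ((N : ℕ) : ℤ) := by
        rw [h5]; exact (hveven.mul_left _).neg
      exact (Int.not_even_iff_odd.2 hNodd) h6
  rw [isOfFinAddOrder_iff_zsmul_eq_zero]
  refine ⟨N, by exact_mod_cast hN0, ?_⟩
  rw [hv, hv0, zero_zsmul]

end H25.CC
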