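import Mathlib

/-!
# Conway tangles and the knots `K_n` (helper25, problem MP_0e99b3_gt)

Concrete definitions.  The 3-ball is the closed ball of radius `√2` in `ℝ³` (coordinates
`x = p 0`, `y = p 1`, `z = p 2`); the diagrams are seen in the plane `y = 0`, `x` to the right and
`z` upwards.  The four marked points are `(±1, 0, ±1)`.

The outside of the ball carries the rational tangle `Q_{1/k}` (`k` an integer, the number of half
twists): from the two lower marked points two vertical segments go down to height `-2`, then the two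
strands turn around each other through `k` half twists (a double helix of radius `1` around the
`z`-axis) down to height `-3`, and then the left and the right end are joined to the upper left and
the upper right marked point on the left and on the right of the ball.  For `k = 0` this is
`Q_∞` (two vertical arcs), for `k = 2 n` it is `Q_∞` with `n` full twists, i.e. `Q_{1/2n}`.
-/

open Set Metric Real

namespace H25.CC

/-- Euclidean three-space. -/
abbrev E3 := EuclideanSpace ℝ (Fin 3)

/-- The point with coordinates `x, y, z`. -/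
noncomputable def pt (x y z : ℝ) : E3 := !₂[x, y, z]

/-- The marked point NW. -/
noncomputable def NW : E3 := pt (-1) 0 1
/-- The marked point NE. -/
noncomputable def NE : E3 := pt 1 0 1
/-- The marked point SW. -/
noncomputable def SW : E3 := pt (-1) 0 (-1)
/-- The marked point SE. -/
noncomputable def SE : E3 := pt 1 0 (-1)

/-- The piecewise linear path with vertices `v 0, v 1, v 2, ...` (vertex `v i` at time `i`). -/
noncomputable def poly (v : ℕ → E3) (s : ℝ) : E3 :=
  v ⌊s⌋₊ + (s - (⌊s⌋₊ : ℝ)) • (v (⌊s⌋₊ + 1) - v ⌊s⌋₊)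

/-- `t` is a simple polygonal arc from `p` to `q` whose vertices, except the two ends, lie in the
open ball of radius `√2`.  (If `p` and `q` lie on the sphere, then `t` meets the sphere only in `p`
and `q`, because the ball is strictly convex.) -/
def IsPolyArc (t : Set E3) (p q : E3) : Prop :=
  ∃ (N : ℕ) (v : ℕ → E3), v 0 = p ∧ v N = q ∧
    (∀ i, 0 < i → i < N → v i ∈ ball (0 : E3) (√2)) ∧
    InjOn (poly v) (Icc 0 (N : ℝ)) ∧ t = poly v '' Icc 0 (N : ℝ)

/-- A Conway tangle without closed components whose arcs join NW to NE and SW to SE: two disjoint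
properly embedded polygonal arcs in the ball. -/
structure ConwayTangle where
  /-- the arc from NW to NE -/
  top : Set E3
  /-- the arc from SW to SE -/
  bot : Set E3
  top_arc : IsPolyArc top NW NE
  bot_arc : IsPolyArc bot SW SE
  disj : Disjoint top bot

/-- One strand (`ε = 1`: the one that starts at the right, `ε = -1`: the one that starts at the
left) of the twist region with `k` half twists. -/
noncomputable def strand (k : ℤ) (ε : ℝ) : Set E3 :=
  (fun τ : ℝ => pt (ε * cos (π * k * τ)) (ε * sin (π * k * τ)) (-2 - τ)) '' Icc 0 1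

/-- The planar arc that joins the lower end `(ε, 0, -3)` of the twist region with the upper marked
point `(ε, 0, 1)` around the ball, on the right for `ε = 1` and on the left for `ε = -1`. -/
noncomputable def side (ε : ℝ) : Set E3 :=
  segment ℝ (pt ε 0 (-3)) (pt ε 0 (-4)) ∪ segment ℝ (pt ε 0 (-4)) (pt (3 * ε) 0 (-4)) ∪
    segment ℝ (pt (3 * ε) 0 (-4)) (pt (3 * ε) 0 2) ∪ segment ℝ (pt (3 * ε) 0 2) (pt ε 0 2) ∪
    segment ℝ (pt ε 0 2) (pt ε 0 1)

/-- The rational tangle `Q_{1/k}` in the complement of the ball (`k` half twists). -/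
noncomputable def outer (k : ℤ) : Set E3 :=
  segment ℝ SE (pt 1 0 (-2)) ∪ segment ℝ SW (pt (-1) 0 (-2)) ∪ strand k 1 ∪ strand k (-1) ∪
    side 1 ∪ side (-1)

/-- The knot `T(1/k)` (`k` half twists; `T(1/0) = T(∞)`). -/
noncomputable def clos (T : ConwayTangle) (k : ℤ) : Set E3 := T.top ∪ T.bot ∪ outer k

/-- The knot `K_n = T(1/2n)` of the problem (`n` full twists). -/
noncomputable def Kn (T : ConwayTangle) (n : ℤ) : Set E3 := clos T (2 * n)

/-- Equality of unoriented knots: there is an ambient isotopy of three-space that carries the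
subset `K` to the subset `L`. -/
def Isotopic (K L : Set E3) : Prop :=
  ∃ H : ℝ → E3 → E3, Continuous (fun p : ℝ × E3 => H p.1 p.2) ∧ (∀ t, IsHomeomorph (H t)) ∧
    H 0 = id ∧ H 1 '' K = L

/-- The tangle is horizontally split: there is a properly embedded disk in the ball, disjoint from
the tangle, whose boundary is the equator `z = 0` of the sphere.  (It separates the two arcs.) -/
def HorizontallySplit (T : ConwayTangle) : Prop :=
  ∃ f : EuclideanSpace ℝ (Fin 2) → E3, ContinuousOn f (closedBall 0 1) ∧
    InjOn f (closedBall 0 1) ∧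
    (∀ u ∈ closedBall (0 : EuclideanSpace ℝ (Fin 2)) 1, f u ∈ closedBall (0 : E3) (√2)) ∧
    (∀ u ∈ closedBall (0 : EuclideanSpace ℝ (Fin 2)) 1,
      (f u ∈ sphere (0 : E3) (√2) ↔ u ∈ sphere (0 : EuclideanSpace ℝ (Fin 2)) 1)) ∧
    (∀ u ∈ sphere (0 : EuclideanSpace ℝ (Fin 2)) 1, f u 2 = 0) ∧
    Disjoint (f '' closedBall 0 1) (T.top ∪ T.bot)

/-- Two points have the same projection to the plane `(x, y)`. -/
def SameProj (p q : E3) : Prop := p 0 = q 0 ∧ p 1 = q 1

/-- The times in `[0, N)` at which the closed polygon `v` passes through a double point of its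
projection to the plane `(x, y)`. -/
def crossings (N : ℕ) (v : ℕ → E3) : Set ℝ :=
  {s | s ∈ Ico (0 : ℝ) N ∧ ∃ s' ∈ Ico (0 : ℝ) N, s' ≠ s ∧ SameProj (poly v s) (poly v s')}

/-- At time `s` the closed polygon `v` passes over another point. -/
def Over (N : ℕ) (v : ℕ → E3) (s : ℝ) : Prop :=
  ∃ s' ∈ Ico (0 : ℝ) N, s' ≠ s ∧ SameProj (poly v s) (poly v s') ∧ poly v s' 2 < poly v s 2

/-- The closed polygon `v` with `N` edges is simple and its projection to the plane `(x, y)` is a
regular alternating diagram: finitely many crossings, none at a vertex, all of them double points,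
and travelling along the polygon one passes alternately over and under. -/
structure IsAlternatingDiagram (N : ℕ) (v : ℕ → E3) : Prop where
  pos : 0 < N
  closed : v N = v 0
  inj : InjOn (poly v) (Ico 0 (N : ℝ))
  finite : (crossings N v).Finite
  nonvertex : ∀ s ∈ crossings N v, ∀ i : ℕ, s ≠ (i : ℝ)
  double : ∀ s ∈ Ico (0 : ℝ) N, ∀ s' ∈ Ico (0 : ℝ) N, ∀ s'' ∈ Ico (0 : ℝ) N,
    SameProj (poly v s) (poly v s') → SameProj (poly v s) (poly v s'') →
      s = s' ∨ s = s'' ∨ s' = s''
  alternating : ∀ s ∈ crossings N v, ∀ s' ∈ crossings N v, s < s' →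
    (∀ u ∈ crossings N v, ¬ (s < u ∧ u < s')) → (Over N v s ↔ ¬ Over N v s')

/-- `K` is an alternating knot: it is isotopic to a knot with an alternating diagram. -/
def Alternating (K : Set E3) : Prop :=
  ∃ (N : ℕ) (v : ℕ → E3), IsAlternatingDiagram N v ∧ Isotopic K (poly v '' Ico 0 (N : ℝ))

end H25.CC
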