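import Mathlib

/-!
# The variance of a polynomial (helper25, problem MP_0e99b3_gt)

For a polynomial `p` with `p(1) ≠ 0` we put
`vr p = (p''(1) + p'(1)) / p(1) - (p'(1) / p(1)) ^ 2`.
If `p` has non-negative coefficients this is the variance of the exponent `d` of a random monomial
`X ^ d` of `p` (weights = coefficients).  It does not change under multiplication by powers of `X`;
for a symmetric Laurent polynomial it is `p''(1) / p(1)`.
-/

open Polynomial Finset

namespace H25.CC

/-- The variance of a polynomial `p` with `p(1) ≠ 0`: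
`(p''(1) + p'(1)) / p(1) - (p'(1) / p(1)) ^ 2`. -/
noncomputable def vr (p : ℤ[X]) : ℚ :=
  ((derivative (derivative p)).eval 1 + (derivative p).eval 1 : ℤ) / (p.eval 1 : ℤ)
    - (((derivative p).eval 1 : ℤ) / (p.eval 1 : ℤ) : ℚ) ^ 2

/-- `1 + X + ... + X ^ (r - 1)`. -/
noncomputable def geo (r : ℕ) : ℤ[X] := ∑ s ∈ range r, X ^ s

theorem vr_mul {p q : ℤ[X]} (hp : p.eval 1 ≠ 0) (hq : q.eval 1 ≠ 0) :
    vr (p * q) = vr p + vr q := by
  have hp' : ((p.eval 1 : ℤ) : ℚ) ≠ 0 := by exact_mod_cast hp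
  have hq' : ((q.eval 1 : ℤ) : ℚ) ≠ 0 := by exact_mod_cast hq
  unfold vr
  simp only [derivative_mul, derivative_add, eval_add, eval_mul]
  push_cast
  field_simp
  ring

theorem geo_eval (r : ℕ) : (geo r).eval 1 = r := by
  simp [geo, eval_finsetSum]

theorem geo_eval' (r : ℕ) : 2 * (derivative (geo r)).eval 1 = (r : ℤ) * (r - 1) := by
  induction r with
  | zero => simp [geo]
  | succ n ih =>
    have h : geo (n + 1) = geo n + X ^ n := by simp [geo, sum_range_succ]
    rw [h, derivative_add, eval_add, mul_add, ih]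
    simp only [derivative_X_pow, eval_mul, eval_pow, eval_X, one_pow, mul_one]
    simp
    ring

theorem geo_eval'' (r : ℕ) :
    3 * (derivative (derivative (geo r))).eval 1 = (r : ℤ) * (r - 1) * (r - 2) := by
  induction r with
  | zero => simp [geo]
  | succ n ih =>
    have h : geo (n + 1) = geo n + X ^ n := by simp [geo, sum_range_succ]
    rw [h, derivative_add, derivative_add, eval_add, mul_add, ih]
    have h2 : (derivative (derivative (X ^ n : ℤ[X]))).eval 1 = (n : ℤ) * (n - 1) := by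
      rcases n with _ | n
      · simp
      · simp [derivative_X_pow]
    rw [h2]
    push_cast
    ring

theorem vr_geo {r : ℕ} (hr : 0 < r) : vr (geo r) = ((r : ℚ) ^ 2 - 1) / 12 := by
  have h0 := geo_eval r
  have h1 : (((derivative (geo r)).eval 1 : ℤ) : ℚ) = (r : ℚ) * (r - 1) / 2 := by
    have := geo_eval' r
    have h : (2 : ℚ) * (((derivative (geo r)).eval 1 : ℤ) : ℚ) = (r : ℚ) * (r - 1) := by
      exact_mod_cast this
    linarith
  have h2 : (((derivative (derivative (geo r))).eval 1 : ℤ) : ℚ)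
      = (r : ℚ) * (r - 1) * (r - 2) / 3 := by
    have := geo_eval'' r
    have h : (3 : ℚ) * (((derivative (derivative (geo r))).eval 1 : ℤ) : ℚ)
        = (r : ℚ) * (r - 1) * (r - 2) := by
      exact_mod_cast this
    linarith
  have hr' : (r : ℚ) ≠ 0 := by exact_mod_cast hr.ne'
  unfold vr
  push_cast
  rw [h1, h2, h0]
  push_cast
  field_simp
  ring

/-- The sum of `d ^ 2 * coeff d` is `p''(1) + p'(1)`. -/
theorem sum_sq (p : ℤ[X]) :
    ∑ d ∈ p.support, p.coeff d * (d : ℤ) ^ 2
      = (derivative (derivative p)).eval 1 + (derivative p).eval 1 := by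
  induction p using Polynomial.induction_on' with
  | add p q hp hq =>
    have key : ∀ p : ℤ[X], ∑ d ∈ p.support, p.coeff d * (d : ℤ) ^ 2
        = p.sum fun d c => c * (d : ℤ) ^ 2 := fun p => rfl
    rw [key] at hp hq ⊢
    rw [Polynomial.sum_add_index, hp, hq]
    · simp only [derivative_add, eval_add]; ring
    · intro i; simp
    · intro i a b; ring
  | monomial n a =>
    by_cases ha : a = 0
    · simp [ha]
    · rw [support_monomial _ ha]
      rcases n with _ | n
      · simp
      · rcases n with _ | n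
        · simp
        · simp
          ring

theorem sum_one (p : ℤ[X]) : ∑ d ∈ p.support, p.coeff d = p.eval 1 := by
  rw [eval_eq_sum]; simp [Polynomial.sum]

theorem sum_id (p : ℤ[X]) :
    ∑ d ∈ p.support, p.coeff d * (d : ℤ) = (derivative p).eval 1 := by
  rw [derivative_eval]; simp [Polynomial.sum]

/-- A polynomial with non-negative coefficients and variance zero is a monomial. -/
theorem monomial_of_vr_eq_zero {a : ℤ[X]} (ha : ∀ d, 0 ≤ a.coeff d) (h1 : 0 < a.eval 1)
    (hv : vr a = 0) {d e : ℕ} (hd : a.coeff d ≠ 0) (he : a.coeff e ≠ 0) : d = e := by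
  set S := a.eval 1 with hS
  set M1 := (derivative a).eval 1 with hM1
  set M2 := (derivative (derivative a)).eval 1 + (derivative a).eval 1 with hM2
  have hS' : (S : ℚ) ≠ 0 := by exact_mod_cast h1.ne'
  have hkey : S * M2 = M1 ^ 2 := by
    have : ((M2 : ℤ) : ℚ) / (S : ℚ) - ((M1 : ℚ) / (S : ℚ)) ^ 2 = 0 := hv
    have h2 : (S : ℚ) * M2 = (M1 : ℚ) ^ 2 := by
      field_simp at this
      linarith
    exact_mod_cast h2
  have hsum : ∑ k ∈ a.support, a.coeff k * (S * (k : ℤ) - M1) ^ 2 = 0 := by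
    have e1 : ∀ k ∈ a.support, a.coeff k * (S * (k : ℤ) - M1) ^ 2
        = S ^ 2 * (a.coeff k * (k : ℤ) ^ 2) - 2 * S * M1 * (a.coeff k * (k : ℤ))
          + M1 ^ 2 * a.coeff k := by
      intro k _; ring
    rw [Finset.sum_congr rfl e1, Finset.sum_add_distrib, Finset.sum_sub_distrib,
      ← Finset.mul_sum, ← Finset.mul_sum, ← Finset.mul_sum, sum_sq, sum_id, sum_one, ← hM2,
      ← hM1, ← hS]
    linear_combination S * hkey
  have hz : ∀ k ∈ a.support, a.coeff k * (S * (k : ℤ) - M1) ^ 2 = 0 :=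
    (Finset.sum_eq_zero_iff_of_nonneg
      (fun k _ => mul_nonneg (ha k) (sq_nonneg _))).1 hsum
  have hone : ∀ k, a.coeff k ≠ 0 → S * (k : ℤ) = M1 := by
    intro k hk
    have := hz k (mem_support_iff.2 hk)
    rcases mul_eq_zero.1 this with h | h
    · exact absurd h hk
    · have := pow_eq_zero_iff (n := 2) (by norm_num) |>.1 h
      linarith
  have h3 : S * (d : ℤ) = S * (e : ℤ) := by rw [hone d hd, hone e he]
  have h4 : (d : ℤ) = (e : ℤ) := mul_left_cancel₀ h1.ne' h3
  exact_mod_cast h4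

/-- **Core of the argument.**  If `Δ(0) ≠ 0`, `Δ(1) > 0`, the coefficients of
`Δ * (1 + X + ... + X ^ (r - 1))` are non-negative and the variance
`vr Δ + (r ^ 2 - 1) / 12` vanishes, then `r = 1` and `Δ` is constant. -/
theorem trivial_of_vr {Δ : ℤ[X]} {r : ℕ} (hr : 0 < r) (h0 : Δ.coeff 0 ≠ 0) (h1 : 0 < Δ.eval 1)
    (hpos : ∀ d, 0 ≤ (Δ * geo r).coeff d) (hv : vr Δ + ((r : ℚ) ^ 2 - 1) / 12 = 0) :
    r = 1 ∧ Δ.natDegree = 0 := by
  have hg1 : 0 < (geo r).eval 1 := by rw [geo_eval]; exact_mod_cast hr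
  have hv' : vr (Δ * geo r) = 0 := by
    rw [vr_mul h1.ne' hg1.ne', vr_geo hr, hv]
  have he1 : 0 < (Δ * geo r).eval 1 := by rw [eval_mul]; exact mul_pos h1 hg1
  have hΔ : Δ ≠ 0 := by rintro rfl; simp at h0
  have hg0 : (geo r).coeff 0 = 1 := by
    rcases r with _ | r
    · omega
    · simp [geo, coeff_X_pow]
  have hgne : geo r ≠ 0 := by intro h; rw [h] at hg0; simp at hg0
  have hgc : (geo r).coeff (r - 1) = 1 := by
    rw [geo, finsetSum_coeff]
    simp only [coeff_X_pow]
    rw [Finset.sum_eq_single (r - 1)]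
    · simp
    · intro b _ hb; simp [Ne.symm hb]
    · intro h; exact absurd (Finset.mem_range.2 (by omega)) h
  have hgd : r - 1 ≤ (geo r).natDegree := le_natDegree_of_ne_zero (by rw [hgc]; norm_num)
  have hc0 : (Δ * geo r).coeff 0 ≠ 0 := by
    rw [mul_coeff_zero, hg0, mul_one]; exact h0
  have hcd : (Δ * geo r).coeff (Δ * geo r).natDegree ≠ 0 := by
    rw [coeff_natDegree]; exact leadingCoeff_ne_zero.2 (mul_ne_zero hΔ hgne)
  have hd := monomial_of_vr_eq_zero hpos he1 hv' hc0 hcd
  rw [natDegree_mul hΔ hgne] at hd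
  constructor <;> omega

end H25.CC
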