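import Mathlib
import Pool.Agent.H25.CC.Vr

/-!
# Positivity of the variance (helper25, problem MP_0e99b3_gt)

If the partial sums of the coefficients of `Δ` lie between `0` and `Δ(1)`, then `vr Δ ≥ 0`, and
`vr Δ = 0` only if `Δ` is a monomial.
-/

open Polynomial Finset

namespace H25.CC

/-- The partial sum `c₀ + ... + c_n` of the coefficients. -/
def psum (c : ℕ → ℤ) (n : ℕ) : ℤ := ∑ i ∈ range (n + 1), c i

theorem psum_succ (c : ℕ → ℤ) (n : ℕ) : psum c (n + 1) = psum c n + c (n + 1) := by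
  rw [psum, sum_range_succ]; rfl

theorem abel_one (c : ℕ → ℤ) (N : ℕ) :
    ∑ i ∈ range (N + 1), c i * (i : ℤ) = N * psum c N - ∑ i ∈ range N, psum c i := by
  induction N with
  | zero => simp
  | succ n ih =>
    rw [sum_range_succ, ih, sum_range_succ (fun i => psum c i), psum_succ]
    push_cast
    ring

theorem abel_two (c : ℕ → ℤ) (N : ℕ) :
    ∑ i ∈ range (N + 1), c i * (i : ℤ) ^ 2
      = (N : ℤ) ^ 2 * psum c N - ∑ i ∈ range N, psum c i * (2 * (i : ℤ) + 1) := by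
  induction N with
  | zero => simp
  | succ n ih =>
    rw [sum_range_succ, ih, sum_range_succ (fun i => psum c i * (2 * (i : ℤ) + 1)), psum_succ]
    push_cast
    ring

/-- The quadratic form that appears. -/
def qf (D : ℤ) (Y : ℕ → ℤ) (N : ℕ) : ℤ :=
  D * ∑ i ∈ range N, Y i * (2 * (i : ℤ) + 1) - (∑ i ∈ range N, Y i) ^ 2

theorem qf_succ (D : ℤ) (Y : ℕ → ℤ) (N : ℕ) :
    qf D Y (N + 1) = qf D Y N + Y N * ((D - Y N) + 2 * ∑ i ∈ range N, (D - Y i)) := by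
  have h : ∑ i ∈ range N, (D - Y i) = N * D - ∑ i ∈ range N, Y i := by
    rw [sum_sub_distrib]; simp
  rw [h]
  simp only [qf, sum_range_succ]
  ring

theorem qf_nonneg {D : ℤ} {Y : ℕ → ℤ} {N : ℕ} (h0 : ∀ i < N, 0 ≤ Y i) (h1 : ∀ i < N, Y i ≤ D) :
    0 ≤ qf D Y N := by
  induction N with
  | zero => simp [qf]
  | succ n ih =>
    rw [qf_succ]
    have := ih (fun i hi => h0 i (by omega)) (fun i hi => h1 i (by omega))
    have h2 : 0 ≤ ∑ i ∈ range n, (D - Y i) :=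
      sum_nonneg fun i hi => by have := h1 i (by rw [mem_range] at hi; omega); linarith
    have h3 := h0 n (by omega)
    have h4 := h1 n (by omega)
    have h5 : 0 ≤ Y n * ((D - Y n) + 2 * ∑ i ∈ range n, (D - Y i)) :=
      mul_nonneg h3 (by linarith)
    linarith

theorem qf_zero {D : ℤ} {Y : ℕ → ℤ} {n : ℕ} (h0 : ∀ i < n + 1, 0 ≤ Y i)
    (h1 : ∀ i < n + 1, Y i ≤ D) (hq : qf D Y (n + 1) = 0) (hn : Y n ≠ 0) :
    ∀ i < n + 1, Y i = D := by
  have ha := qf_nonneg (N := n) (fun i hi => h0 i (by omega)) (fun i hi => h1 i (by omega))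
  have h2 : ∀ i ∈ range n, 0 ≤ D - Y i := fun i hi => by
    have := h1 i (by rw [mem_range] at hi; omega); linarith
  have h2' : 0 ≤ ∑ i ∈ range n, (D - Y i) := sum_nonneg h2
  have h3 := h0 n (by omega)
  have h4 := h1 n (by omega)
  rw [qf_succ] at hq
  have h5 : 0 ≤ Y n * ((D - Y n) + 2 * ∑ i ∈ range n, (D - Y i)) :=
    mul_nonneg h3 (by linarith)
  have h6 : Y n * ((D - Y n) + 2 * ∑ i ∈ range n, (D - Y i)) = 0 := by linarith
  rcases mul_eq_zero.1 h6 with h7 | h7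
  · exact absurd h7 hn
  · have h8 : ∑ i ∈ range n, (D - Y i) = 0 := by linarith
    have h9 := (sum_eq_zero_iff_of_nonneg h2).1 h8
    intro i hi
    rcases Nat.lt_or_ge i n with h | h
    · have := h9 i (mem_range.2 h); linarith
    · have : i = n := by omega
      subst this; linarith

/-- `Δ(1) ^ 2 * vr Δ` is a value of the quadratic form. -/
theorem vr_eq_qf {Δ : ℤ[X]} (h1 : Δ.eval 1 ≠ 0) :
    ((Δ.eval 1 : ℤ) : ℚ) ^ 2 * vr Δ
      = qf (Δ.eval 1) (fun i => psum Δ.coeff (Δ.natDegree - 1 - i)) Δ.natDegree := by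
  set N := Δ.natDegree with hN
  set D := Δ.eval 1 with hD
  have e0 : psum Δ.coeff N = D := by
    rw [hD, eval_eq_sum_range]; simp [psum, hN]
  have e1 : (derivative Δ).eval 1 = N * D - ∑ i ∈ range N, psum Δ.coeff i := by
    rw [← e0, ← abel_one, ← sum_id]
    exact sum_subset (fun i hi => mem_range_succ_iff.2 (le_natDegree_of_mem_supp i hi))
      (fun i _ hi => by rw [notMem_support_iff.1 hi, zero_mul])
  have e2 : (derivative (derivative Δ)).eval 1 + (derivative Δ).eval 1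
      = (N : ℤ) ^ 2 * D - ∑ i ∈ range N, psum Δ.coeff i * (2 * (i : ℤ) + 1) := by
    rw [← e0, ← abel_two, ← sum_sq]
    exact sum_subset (fun i hi => mem_range_succ_iff.2 (le_natDegree_of_mem_supp i hi))
      (fun i _ hi => by rw [notMem_support_iff.1 hi, zero_mul])
  have r1 : ∑ i ∈ range N, psum Δ.coeff (N - 1 - i) = ∑ i ∈ range N, psum Δ.coeff i :=
    sum_range_reflect (fun i => psum Δ.coeff i) N
  have r2 : ∑ i ∈ range N, psum Δ.coeff (N - 1 - i) * (2 * (i : ℤ) + 1)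
      = ∑ i ∈ range N, psum Δ.coeff i * (2 * ((N : ℤ) - 1 - i) + 1) := by
    rw [← sum_range_reflect (fun i => psum Δ.coeff i * (2 * ((N : ℤ) - 1 - i) + 1)) N]
    refine sum_congr rfl fun i hi => ?_
    rw [mem_range] at hi
    congr 2
    have : ((N - 1 - i : ℕ) : ℤ) = (N : ℤ) - 1 - i := by omega
    rw [this]; ring
  have r3 : ∑ i ∈ range N, psum Δ.coeff i * (2 * ((N : ℤ) - 1 - i) + 1)
      = 2 * N * ∑ i ∈ range N, psum Δ.coeff i
        - ∑ i ∈ range N, psum Δ.coeff i * (2 * (i : ℤ) + 1) := by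
    rw [mul_sum, ← sum_sub_distrib]
    exact sum_congr rfl fun i _ => by ring
  have hQ : ((Δ.eval 1 : ℤ) : ℚ) ≠ 0 := by exact_mod_cast h1
  have key : ((D : ℤ) : ℚ) ^ 2 * vr Δ = ((D * ((derivative (derivative Δ)).eval 1
      + (derivative Δ).eval 1) - (derivative Δ).eval 1 ^ 2 : ℤ) : ℚ) := by
    unfold vr
    rw [← hD] at hQ ⊢
    push_cast
    field_simp
  rw [key, e2, e1]
  congr 1
  rw [qf, r1, r2, r3]
  ring

theorem vr_nonneg {Δ : ℤ[X]} (h1 : 0 < Δ.eval 1)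
    (hS : ∀ n, 0 ≤ psum Δ.coeff n ∧ psum Δ.coeff n ≤ Δ.eval 1) : 0 ≤ vr Δ := by
  have h := vr_eq_qf h1.ne'
  have hq : (0 : ℤ) ≤ qf (Δ.eval 1) (fun i => psum Δ.coeff (Δ.natDegree - 1 - i)) Δ.natDegree :=
    qf_nonneg (fun i _ => (hS _).1) (fun i _ => (hS _).2)
  have hq' : (0 : ℚ) ≤ ((Δ.eval 1 : ℤ) : ℚ) ^ 2 * vr Δ := by rw [h]; exact_mod_cast hq
  have hD : (0 : ℚ) < ((Δ.eval 1 : ℤ) : ℚ) ^ 2 := by
    have : (0 : ℚ) < ((Δ.eval 1 : ℤ) : ℚ) := by exact_mod_cast h1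
    positivity
  exact (mul_nonneg_iff_of_pos_left hD).1 hq'

theorem natDegree_of_vr {Δ : ℤ[X]} (h1 : 0 < Δ.eval 1) (h0 : Δ.coeff 0 ≠ 0)
    (hS : ∀ n, 0 ≤ psum Δ.coeff n ∧ psum Δ.coeff n ≤ Δ.eval 1) (hv : vr Δ = 0) :
    Δ.natDegree = 0 := by
  by_contra hne
  obtain ⟨n, hn⟩ := Nat.exists_eq_succ_of_ne_zero hne
  have h := vr_eq_qf h1.ne'
  rw [hv, mul_zero] at h
  have hq : qf (Δ.eval 1) (fun i => psum Δ.coeff (Δ.natDegree - 1 - i)) (n + 1) = 0 := by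
    have : Δ.natDegree = n + 1 := hn
    rw [← this]; exact_mod_cast h.symm
  have hall := qf_zero (fun i _ => (hS _).1) (fun i _ => (hS _).2) hq
    (by
      have : Δ.natDegree - 1 - n = 0 := by omega
      simp only [this, psum]
      simpa using h0)
  have h2 := hall 0 (by omega)
  simp only [Nat.sub_zero] at h2
  have h3 : psum Δ.coeff Δ.natDegree = Δ.eval 1 := by
    rw [eval_eq_sum_range]; simp [psum]
  have h4 : Δ.natDegree = (Δ.natDegree - 1) + 1 := by omega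
  rw [h4, psum_succ, h2, ← h4] at h3
  have h5 : Δ.coeff Δ.natDegree = 0 := by linarith
  rw [coeff_natDegree, leadingCoeff_eq_zero] at h5
  rw [h5] at h0
  simp at h0

/-- **Core of the argument.**  If `Δ(0) ≠ 0`, `Δ(1) > 0`, the partial sums of the coefficients of
`Δ` lie between `0` and `Δ(1)`, then `vr Δ + (r ^ 2 - 1) / 12 ≥ 0` for `r ≥ 1`, and if it vanishes
then `r = 1` and `Δ` is constant. -/
theorem trivial_of_psum {Δ : ℤ[X]} {r : ℕ} (hr : 0 < r) (h0 : Δ.coeff 0 ≠ 0) (h1 : 0 < Δ.eval 1)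
    (hS : ∀ n, 0 ≤ psum Δ.coeff n ∧ psum Δ.coeff n ≤ Δ.eval 1)
    (hv : vr Δ + ((r : ℚ) ^ 2 - 1) / 12 = 0) : r = 1 ∧ Δ.natDegree = 0 := by
  have h := vr_nonneg h1 hS
  have hr' : (1 : ℚ) ≤ r := by exact_mod_cast hr
  have h2 : (0 : ℚ) ≤ ((r : ℚ) ^ 2 - 1) / 12 := by
    have : (1 : ℚ) ≤ (r : ℚ) ^ 2 := by nlinarith
    linarith
  have h3 : vr Δ = 0 := by linarith
  have h4 : ((r : ℚ) ^ 2 - 1) / 12 = 0 := by linarith
  refine ⟨?_, natDegree_of_vr h1 h0 hS h3⟩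
  have h5 : (r : ℚ) ^ 2 = 1 := by linarith
  have h6 : (r : ℚ) = 1 := by nlinarith
  exact_mod_cast h6

end H25.CC
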