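import Mathlib
import Pool.Agent.H25.CC.Tangle
import Pool.Agent.H25.CC.Vn

/-!
# Double branched covers: the published theorems used (helper25, problem MP_0e99b3_gt)

`Σ(L)` denotes the double cover of the 3-sphere branched along a tame link `L` (a subset of
`ℝ³ ⊂ S³`), `X = X_T` the double cover of the ball branched along the two arcs of the tangle `T`;
`X` is a compact oriented 3-manifold whose boundary is a torus.  Invariants of sets that are not
tame links are never used (give them any default value).
-/

open Polynomial AddSubgroup

namespace H25.CC

/-- Data of the double cover `X` of the ball branched along the tangle `T`. -/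
structure TangleCover (T : ConwayTangle) where
  /-- the group `H₁(X; ℤ)` -/
  A : Type
  [grp : AddCommGroup A]
  /-- the class in `H₁(X; ℤ)` of the curve `μ` on the boundary torus that lies over the vertical
  curve (slope `∞`) of the four-punctured sphere -/
  μ : A
  /-- the class in `H₁(X; ℤ)` of the curve `ν` on the boundary torus that lies over the horizontal
  curve (slope `0`, the equator) of the four-punctured sphere; `μ` and `ν` meet once, and `ν` is
  oriented so that `Σ(T(1/k))` is the Dehn filling of `X` along `μ + k ν` for all `k` -/
  ν : A
  /-- the Alexander polynomial of `X`: the order of the first homology of the infinite cyclic cover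
  of `X` given by the homomorphism of `H₁(X; ℤ)` onto `ℤ` (unique up to sign), normalised by
  `Δ(0) ≠ 0`, `Δ(1) > 0` (so `Δ(1)` is the order of the torsion subgroup of `H₁(X; ℤ)`) -/
  Δ : ℤ[X]
  /-- if `ν = 0` in `H₁(X; ℤ)`: the least genus of a compact connected oriented surface, properly
  embedded in `X`, whose boundary is one curve of slope `ν` (otherwise the value does not matter) -/
  genus : ℕ
  /-- `LSlope p q` (`p`, `q` coprime): the Dehn filling of `X` along the slope `p μ + q ν`, i.e. the
  double branched cover `Σ(T(p/q))` of the closure of `T` by the rational tangle `Q_{p/q}`, is an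
  L-space -/
  LSlope : ℤ → ℤ → Prop

attribute [instance] TangleCover.grp

/-- `X` is Floer simple (Rasmussen–Rasmussen): it has at least two L-space fillings; that is, two
different rational closures `T(p/q)`, `T(p'/q')` of the tangle have L-space double branched
covers. -/
def TangleCover.FloerSimple {T : ConwayTangle} (X : TangleCover T) : Prop :=
  ∃ p q p' q' : ℤ, IsCoprime p q ∧ IsCoprime p' q' ∧ p * q' ≠ p' * q ∧
    X.LSlope p q ∧ X.LSlope p' q'

/-- **The published theorems** on double branched covers that are used. -/
structure CoverTheory where
  /-- `SameCover K L`: there is an orientation preserving homeomorphism `Σ(K) → Σ(L)` -/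
  SameCover : Set E3 → Set E3 → Prop
  /-- `Σ(K)` is an L-space: a rational homology sphere whose Heegaard Floer homology has rank
  `|H₁|` (Ozsváth–Szabó).  This holds for all alternating and all quasi-alternating knots. -/
  LSp : Set E3 → Prop
  /-- the Casson–Walker invariant of `Σ(K)` in Walker's normalisation
  (`λ_W = 2 λ_Casson` for integral homology spheres) -/
  cw : Set E3 → ℚ
  /-- the order of `H₁(Σ(K); ℤ)` (`0` if it is infinite); the determinant of the link -/
  det : Set E3 → ℕ
  /-- the double cover of the ball branched along a tangle -/
  X : ∀ T : ConwayTangle, TangleCover T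
  /-- An ambient isotopy lifts to an orientation preserving homeomorphism of the double covers. -/
  same_of_isotopic : ∀ K L : Set E3, Isotopic K L → SameCover K L
  /-- the L-space property is an invariant of the oriented manifold `Σ(K)` (it does not even depend
  on the orientation) -/
  lsp_same : ∀ K L : Set E3, SameCover K L → LSp K → LSp L
  /-- the Casson–Walker invariant is an invariant of the oriented manifold `Σ(K)` -/
  cw_same : ∀ K L : Set E3, SameCover K L → cw K = cw L
  /-- the order of `H₁` is an invariant of the manifold `Σ(K)` -/
  det_same : ∀ K L : Set E3, SameCover K L → det K = det L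
  /-- `H₁(X; ℤ)` is infinite (half lives, half dies: the boundary of `X` is a torus) -/
  infinite : ∀ T, Infinite (X T).A
  /-- **Montesinos trick**: `Σ(T(1/k))` is the Dehn filling of `X` along `μ + k ν`, so
  `H₁(Σ(T(1/k))) = H₁(X) / ⟨μ + k ν⟩` -/
  det_clos : ∀ T (k : ℤ), det (clos T k) = Nat.card ((X T).A ⧸ zmultiples ((X T).μ + k • (X T).ν))
  /-- **Montesinos trick**: `Σ(T(1/k))` is the Dehn filling of `X` along `μ + k ν` -/
  lslope_clos : ∀ T (k : ℤ), LSp (clos T k) ↔ (X T).LSlope 1 k
  /-- `T(1/k)` is a knot, and the determinant of a knot is odd (`H₁(Σ(K); ℤ/2) = 0`) -/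
  det_odd : ∀ T (k : ℤ), Odd (det (clos T k))
  /-- `T(0)` is a link of two components, so `H₁(Σ(T(0))) = H₁(X) / ⟨ν⟩` is infinite or has even
  order (`H₁(Σ(L); ℤ/2)` has dimension one less than the number of components of `L`);
  `Nat.card` of an infinite set is `0` -/
  det_even : ∀ T, Even (Nat.card ((X T).A ⧸ zmultiples (X T).ν))
  /-- normalisation of the Alexander polynomial -/
  alex_zero : ∀ T, (X T).Δ.coeff 0 ≠ 0
  /-- normalisation of the Alexander polynomial: `Δ(1)` is the order of the torsion subgroup of
  `H₁(X; ℤ)` (here `b₁(X) = 1` and `H₂(X; ℤ) = 0`, as `Σ(T(∞))` is a rational homology sphere); in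
  particular it is positive -/
  alex_one : ∀ T, 0 < (X T).Δ.eval 1
  /-- **Walker's surgery formula** (Walker, An extension of Casson's invariant, Ann. of Math.
  Studies 126, 1992, Theorem 4.2, and Proposition 6.2 for the form used here):
  `λ(X(b)) - λ(X(a)) = τ(a,b;l) + ⟨a,b⟩/(⟨a,l⟩⟨b,l⟩) Δ''(1)` with
  `τ(a,b;l) = -s(⟨x,a⟩,⟨y,a⟩) + s(⟨x,b⟩,⟨y,b⟩) + ((r²-1)/12) ⟨a,b⟩/(⟨a,l⟩⟨b,l⟩)`, where `l = r y`
  generates the kernel of `H₁(∂X) → H₁(X)`, `y` is primitive, `⟨x,y⟩ = 1`, and `Δ` is symmetric with
  `Δ(1) = 1`.  Here `ν` is torsion, so `y = ν`, `r` = order of `ν`, `a = μ + iν`, `b = μ + jν`,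
  `⟨y,a⟩ = ⟨y,b⟩ = ±1`, so the Dedekind sums vanish, `⟨a,b⟩/(⟨a,l⟩⟨b,l⟩) = ±(j-i)/r²` with one sign
  for all `i, j`; and `vr Δ = Δ''(1)/Δ(1)` for symmetric `Δ` (`vr` is invariant under
  multiplication of `Δ` by constants and powers of the variable). -/
  walker : ∀ T, IsOfFinAddOrder (X T).ν → ∃ σ : ℚ, (σ = 1 ∨ σ = -1) ∧ ∀ i j : ℤ,
    cw (clos T j) - cw (clos T i) = σ * (((j : ℚ) - i) / (addOrderOf (X T).ν : ℚ) ^ 2)
      * (vr (X T).Δ + ((addOrderOf (X T).ν : ℚ) ^ 2 - 1) / 12)
  /-- **Rasmussen–Rasmussen** (Floer simple manifolds and L-space intervals, Adv. Math. 322, 2017):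
  if `X` is Floer simple, then all coefficients of the Turaev torsion `τ(X) = ∑ a_h [h]`,
  `h ∈ H₁(X)`, are `0` or `1` (expanded so that `a_h = 0` where `φ(h)` is very negative, `φ` being
  the homomorphism of `H₁(X)` onto `ℤ`).  The reason: the set of L-space slopes is an interval, the
  core of the filling along an interior slope `γ` is a Floer simple knot, its knot Floer homology has
  rank one, in even degree, in every Spin^c structure, and its Euler characteristic is
  `(1 - [γ]) τ(X)`.  The image of `τ(X)` under `φ` is `± t^c Δ(t) / (1 - t)`, and every fibre of `φ`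
  has `Δ(1)` elements; so the coefficients of `Δ(t) / (1 - t)`, i.e. the partial sums of the
  coefficients of `Δ`, lie between `0` and `Δ(1)`. -/
  floer_simple : ∀ T, (X T).FloerSimple → ∀ n,
    0 ≤ psum (X T).Δ.coeff n ∧ psum (X T).Δ.coeff n ≤ (X T).Δ.eval 1
  /-- **Knot Floer homology detects the genus** (Ozsváth–Szabó; Ni, Link Floer homology detects the
  Thurston norm, Geom. Topol. 2009; Ni–Wu for knots in rational homology spheres).  Let `X` be Floer
  simple and `ν = 0` in `H₁(X)`.  The core of an interior L-space filling of slope `p μ + q ν`,
  `p > 0`, is a Floer simple knot; its knot Floer homology has Euler characteristic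
  `Δ(t) (t^p - 1) / (t - 1)` and no cancellation, so the width of its Alexander grading is
  `deg Δ + p - 1`; it is also equal to `p - χ(F)` for a surface `F` of least genus bounded by one
  curve of slope `ν`.  So the degree of `Δ` is twice the genus. -/
  genus_detection : ∀ T, (X T).FloerSimple → (X T).ν = 0 → (X T).Δ.natDegree = 2 * (X T).genus
  /-- **Equivariant loop theorem** (Meeks–Yau; Kim–Tollefson; Lidman–Moore, Cosmetic surgery in
  L-spaces and nugatory crossings, Trans. AMS 2017).  If `ν` bounds a disk in `X`, then there is
  such a disk `D` that is disjoint from its image under the covering involution `τ` or equal to it.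
  In the first case its image in the ball is a disk disjoint from `T` with boundary of slope `0`.
  In the second case `τ` is not a rotation of `D` about a point, since `τ` acts by `-1` on the first
  homology of the boundary torus; so `D` meets the branch set in an arc, the quotient of `D` is a
  parallelism of one arc of `T` into the sphere, and the frontier of a neighbourhood of it is a disk
  disjoint from `T` with boundary of slope `0`.  A curve of slope `0` is isotopic to the equator in
  the four-punctured sphere, so `T` is horizontally split. -/
  split_of_disk : ∀ T, (X T).ν = 0 → (X T).genus = 0 → HorizontallySplit T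
  /-- **Ozsváth–Szabó** (On the Heegaard Floer homology of branched double-covers, Adv. Math. 194,
  2005, Proposition 3.3): the double branched cover of an alternating knot is an L-space. -/
  lsp_alternating : ∀ K, Alternating K → LSp K

end H25.CC
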