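import Mathlib
import Pool.Agent.H25.CC.Theory
import Pool.Agent.H25.CC.Gr

/-!
# The cosmetic crossing conjecture for knots with an L-space double branched cover
(helper25, problem MP_0e99b3_gt)
-/

open Polynomial AddSubgroup

namespace H25.CC

/-- If `m ≠ n` and `K_m`, `K_n` have the same determinant, then `ν` is torsion. -/
theorem torsion (P : CoverTheory) {T : ConwayTangle} {m n : ℤ} (hmn : m ≠ n)
    (hdet : P.det (Kn T m) = P.det (Kn T n)) : IsOfFinAddOrder (P.X T).ν := by
  have hinf := P.infinite T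
  have hodd := P.det_odd T (2 * m)
  have hd : Nat.card ((P.X T).A ⧸ zmultiples ((P.X T).μ + (2 * m) • (P.X T).ν))
      = Nat.card ((P.X T).A ⧸ zmultiples ((P.X T).μ + (2 * n) • (P.X T).ν)) := by
    rw [← P.det_clos T (2 * m), ← P.det_clos T (2 * n)]; exact hdet
  rw [P.det_clos T (2 * m)] at hodd
  exact torsion_of_orders hmn hodd hd (P.det_even T)

/-- The difference of the Casson–Walker invariants of two members of the family `K_n`. -/
theorem cw_sub (P : CoverTheory) {T : ConwayTangle} (htor : IsOfFinAddOrder (P.X T).ν) :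
    ∃ σ : ℚ, (σ = 1 ∨ σ = -1) ∧ ∀ m n : ℤ, P.cw (Kn T n) - P.cw (Kn T m)
      = (2 * ((n : ℚ) - m) / (addOrderOf (P.X T).ν : ℚ) ^ 2)
        * (σ * (vr (P.X T).Δ + ((addOrderOf (P.X T).ν : ℚ) ^ 2 - 1) / 12)) := by
  obtain ⟨σ, hσ, hw⟩ := P.walker T htor
  refine ⟨σ, hσ, fun m n => ?_⟩
  have := hw (2 * m) (2 * n)
  change P.cw (clos T (2 * n)) - P.cw (clos T (2 * m)) = _
  rw [this]
  push_cast
  ring

/-- Necessary condition, no Floer homology: if `m ≠ n` and the double covers of `K_m` and `K_n`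
have the same order of `H₁` and the same Casson–Walker invariant, then `ν` is torsion, of order
`r`, say, and the variance `vr Δ + (r ^ 2 - 1) / 12` vanishes. -/
theorem necessary (P : CoverTheory) {T : ConwayTangle} {m n : ℤ} (hmn : m ≠ n)
    (hdet : P.det (Kn T m) = P.det (Kn T n)) (hcw : P.cw (Kn T m) = P.cw (Kn T n)) :
    IsOfFinAddOrder (P.X T).ν ∧
      vr (P.X T).Δ + ((addOrderOf (P.X T).ν : ℚ) ^ 2 - 1) / 12 = 0 := by
  have htor := torsion P hmn hdet
  refine ⟨htor, ?_⟩
  obtain ⟨σ, hσ, hw⟩ := cw_sub P htor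
  have h1 := hw m n
  rw [hcw, sub_self] at h1
  have hrQ : ((addOrderOf (P.X T).ν : ℕ) : ℚ) ≠ 0 := by exact_mod_cast htor.addOrderOf_pos.ne'
  have hmnQ : 2 * ((n : ℚ) - (m : ℚ)) ≠ 0 := by
    have : (n : ℚ) ≠ m := by exact_mod_cast hmn.symm
    exact mul_ne_zero two_ne_zero (sub_ne_zero.2 this)
  have hσ0 : σ ≠ 0 := by rcases hσ with h | h <;> rw [h] <;> norm_num
  rcases mul_eq_zero.1 h1.symm with h | h
  · exact absurd h (div_ne_zero hmnQ (pow_ne_zero 2 hrQ))
  · exact (mul_eq_zero.1 h).resolve_left hσ0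

/-- **Main theorem.**  `T` not horizontally split, `X` Floer simple, `ν` torsion of order `r`: the
variance `vr Δ + (r ^ 2 - 1) / 12` does not vanish. -/
theorem variance_ne_zero (P : CoverTheory) {T : ConwayTangle} (hT : ¬ HorizontallySplit T)
    (hX : (P.X T).FloerSimple) (htor : IsOfFinAddOrder (P.X T).ν) :
    vr (P.X T).Δ + ((addOrderOf (P.X T).ν : ℚ) ^ 2 - 1) / 12 ≠ 0 := by
  intro hv
  obtain ⟨hr1, hdeg⟩ := trivial_of_psum htor.addOrderOf_pos (P.alex_zero T) (P.alex_one T)
    (P.floer_simple T hX) hv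
  have hν : (P.X T).ν = 0 := AddMonoid.addOrderOf_eq_one_iff.1 hr1
  have hg := P.genus_detection T hX hν
  rw [hdeg] at hg
  exact hT (P.split_of_disk T hν (by omega))

/-- `T` not horizontally split, `X` Floer simple: the determinant is injective along the family
`K_n`, or the Casson–Walker invariant of the double cover is strictly monotone. -/
theorem monotone (P : CoverTheory) {T : ConwayTangle} (hT : ¬ HorizontallySplit T)
    (hX : (P.X T).FloerSimple) :
    Function.Injective (fun n => P.det (Kn T n)) ∨ StrictMono (fun n => P.cw (Kn T n)) ∨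
      StrictAnti (fun n => P.cw (Kn T n)) := by
  by_cases hinj : Function.Injective (fun n => P.det (Kn T n))
  · exact Or.inl hinj
  right
  obtain ⟨m, n, hd, hmn⟩ : ∃ m n, P.det (Kn T m) = P.det (Kn T n) ∧ m ≠ n := by
    simpa [Function.Injective, and_comm] using hinj
  have htor := torsion P hmn hd
  obtain ⟨σ, hσ, key⟩ := cw_sub P htor
  have hσ0 : σ ≠ 0 := by rcases hσ with h | h <;> rw [h] <;> norm_num
  have hrQ : (0 : ℚ) < ((addOrderOf (P.X T).ν : ℕ) : ℚ) := by
    exact_mod_cast htor.addOrderOf_pos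
  have hne := mul_ne_zero hσ0 (variance_ne_zero P hT hX htor)
  set r : ℚ := ((addOrderOf (P.X T).ν : ℕ) : ℚ) with hr
  set V : ℚ := σ * (vr (P.X T).Δ + (r ^ 2 - 1) / 12) with hV
  rcases lt_or_gt_of_ne hne with h | h
  · right
    intro a b hab
    have hab' : (0 : ℚ) < (b : ℚ) - a := by
      have : (a : ℚ) < b := by exact_mod_cast hab
      linarith
    have h2 : (2 * ((b : ℚ) - a) / r ^ 2) * V < 0 :=
      mul_neg_of_pos_of_neg (by positivity) h
    have := key a b
    simp only
    linarith
  · left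
    intro a b hab
    have hab' : (0 : ℚ) < (b : ℚ) - a := by
      have : (a : ℚ) < b := by exact_mod_cast hab
      linarith
    have h2 : 0 < (2 * ((b : ℚ) - a) / r ^ 2) * V :=
      mul_pos (by positivity) h
    have := key a b
    simp only
    linarith

/-- `T` not horizontally split, `X` Floer simple: the double covers of all the `K_n` are pairwise
different. -/
theorem not_same_of_simple (P : CoverTheory) {T : ConwayTangle} (hT : ¬ HorizontallySplit T)
    (hX : (P.X T).FloerSimple) {m n : ℤ} (hmn : m ≠ n) :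
    ¬ P.SameCover (Kn T m) (Kn T n) := by
  intro h
  rcases monotone P hT hX with h1 | h1 | h1
  · exact hmn (h1 (P.det_same _ _ h))
  · exact hmn (h1.injective (P.cw_same _ _ h))
  · exact hmn (h1.injective (P.cw_same _ _ h))

/-- Two closures `T(1/i)`, `T(1/j)`, `i ≠ j`, with L-space covers: `X` is Floer simple. -/
theorem simple_of_two (P : CoverTheory) {T : ConwayTangle} {i j : ℤ} (hij : i ≠ j)
    (hi : P.LSp (clos T i)) (hj : P.LSp (clos T j)) : (P.X T).FloerSimple :=
  ⟨1, i, 1, j, isCoprime_one_left, isCoprime_one_left, by simpa using hij.symm,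
    (P.lslope_clos T i).1 hi, (P.lslope_clos T j).1 hj⟩

/-- If `T` is not horizontally split and `Σ(K_m)` is an L-space, then `Σ(K_m)` and `Σ(K_n)` are
different for all `n ≠ m`. -/
theorem not_same (P : CoverTheory) {T : ConwayTangle} (hT : ¬ HorizontallySplit T) {m n : ℤ}
    (hmn : m ≠ n) (hL : P.LSp (Kn T m)) : ¬ P.SameCover (Kn T m) (Kn T n) := by
  intro h
  have hL' : P.LSp (Kn T n) := P.lsp_same _ _ h hL
  exact not_same_of_simple P hT (simple_of_two P (i := 2 * m) (j := 2 * n) (by omega) hL hL')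
    hmn h

end H25.CC
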